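import Pool.Agent.Helper96.TF.Dual

set_option autoImplicit false

open MeasureTheory Filter Topology

namespace Pool.Agent.Helper96.TF

noncomputable section

/-- the interaction energy of `n` molecules translated by `l • Y m` -/
def DeltaE (γ : ℝ) {n : ℕ} {K : Fin n → ℕ} (z : ∀ m, Fin (K m) → ℝ) (R : ∀ m, Fin (K m) → X)
    (Y : Fin n → X) (l : ℝ) : ℝ :=
  TFE γ (fun i : (m : Fin n) × Fin (K m) => z i.1 i.2) (fun i => R i.1 i.2 + l • Y i.1) -
    ∑ m, TFE γ (z m) (R m)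

/-- for large `l` the nuclei of the whole configuration are distinct -/
theorem P_inj {n : ℕ} {K : Fin n → ℕ} (R : ∀ m, Fin (K m) → X) (Y : Fin n → X)
    (hR : ∀ m, Function.Injective (R m)) (hY : Function.Injective Y) :
    ∃ l0 : ℝ, 0 < l0 ∧ ∀ l, l0 ≤ l →
      Function.Injective (fun i : (m : Fin n) × Fin (K m) => R i.1 i.2 + l • Y i.1) := by
  obtain ⟨d, hd, hdist⟩ := exists_min_dist hY
  obtain ⟨B, hB⟩ : ∃ B : ℝ, ∀ i : (m : Fin n) × Fin (K m), ‖R i.1 i.2‖ ≤ B :=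
    ⟨∑ j : (m : Fin n) × Fin (K m), ‖R j.1 j.2‖, fun i =>
      Finset.single_le_sum (f := fun j : (m : Fin n) × Fin (K m) => ‖R j.1 j.2‖)
        (fun _ _ => norm_nonneg _) (Finset.mem_univ i)⟩
  refine ⟨(2 * |B| + 1) / d, by positivity, fun l hl => ?_⟩
  have hl' : 2 * |B| + 1 ≤ l * d := (div_le_iff₀ hd).mp hl
  have hlpos : 0 < l := lt_of_lt_of_le (by positivity) hl
  rintro ⟨p, i⟩ ⟨q, j⟩ hij
  simp only at hij
  by_cases hpq : p = q
  · subst hpq
    have := hR p (add_right_cancel hij)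
    rw [this]
  · exfalso
    have h1 := hdist p q hpq
    have h2 : l • (Y p - Y q) = R q j - R p i := by
      rw [smul_sub, sub_eq_sub_iff_add_eq_add, add_comm, hij, add_comm]
    have h3 : ‖l • (Y p - Y q)‖ ≤ ‖R q j‖ + ‖R p i‖ := by
      rw [h2]; exact norm_sub_le _ _
    rw [norm_smul, Real.norm_of_nonneg hlpos.le] at h3
    have h4 := hB ⟨p, i⟩
    have h5 := hB ⟨q, j⟩
    have h6 := le_abs_self B
    simp only at h4 h5
    have h7 : l * d ≤ l * ‖Y p - Y q‖ := mul_le_mul_of_nonneg_left h1 hlpos.le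
    linarith

end

end Pool.Agent.Helper96.TF
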