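import Pool.Agent.Helper93.TF.TwoNuc

set_option autoImplicit false

open MeasureTheory Filter Topology

namespace Pool.Agent.Helper96.TF

noncomputable section

/-- superadditivity for a finite family -/
theorem TFE_sum_superadd {ι : Type} [Fintype ι] {γ : ℝ} (hγ : 0 < γ) {κ : Type} [DecidableEq κ]
    {ζ : κ → ι → ℝ} {R : ι → X} (hR : Function.Injective R) (h0 : ∀ m i, 0 ≤ ζ m i)
    (hd : ∀ m m', m ≠ m' → ∀ i, ζ m i * ζ m' i = 0) (s : Finset κ) :
    ∑ m ∈ s, TFE γ (ζ m) R ≤ TFE γ (fun i => ∑ m ∈ s, ζ m i) R := by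
  induction s using Finset.induction_on with
  | empty => simp [TFE_zero_charge hγ hR]
  | insert a s ha ih =>
    rw [Finset.sum_insert ha]
    have h := TFE_superadd hγ (β := ζ a) (β' := fun i => ∑ m ∈ s, ζ m i) hR (h0 a)
      (fun i => Finset.sum_nonneg fun m _ => h0 m i) (fun i => by
        rw [Finset.mul_sum]
        exact Finset.sum_eq_zero fun m hm => hd a m (fun h => ha (h ▸ hm)) i)
    have e : (fun i => ∑ m ∈ insert a s, ζ m i) = fun i => ζ a i + ∑ m ∈ s, ζ m i := by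
      funext i; rw [Finset.sum_insert ha]
    rw [e]
    linarith

variable {n : ℕ} {K : Fin n → ℕ}

/-- the charges of the molecule `m` -/
def zeta (z : ∀ m, Fin (K m) → ℝ) (m : Fin n) (i : (m : Fin n) × Fin (K m)) : ℝ :=
  if i.1 = m then z i.1 i.2 else 0

lemma TFE_zeta (γ : ℝ) (z : ∀ m, Fin (K m) → ℝ) (R : ∀ m, Fin (K m) → X) (Y : Fin n → X) (l : ℝ)
    (m : Fin n) :
    TFE γ (zeta z m) (fun i : (m : Fin n) × Fin (K m) => R i.1 i.2 + l • Y i.1) =
      TFE γ (z m) (R m) := by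
  rw [TFE_embed γ (zeta z m) _ (fun i : Fin (K m) => (⟨m, i⟩ : (m : Fin n) × Fin (K m)))
    (fun i j h => by simpa using h) (fun i hi => by
      unfold zeta
      rw [if_neg]
      rintro rfl
      exact hi ⟨i.2, rfl⟩)]
  have h1 : (fun k : Fin (K m) => zeta z m ⟨m, k⟩) = z m := by
    funext k; simp [zeta]
  rw [h1]
  exact TFE_translate γ (z m) (R m) (l • Y m)

/-- the lower half of the theorem -/
theorem lower_half {γ : ℝ} (hγ : 0 < γ) (z : ∀ m, Fin (K m) → ℝ) (R : ∀ m, Fin (K m) → X)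
    (Y : Fin n → X) (hn : 2 ≤ n) (hK : ∀ m, 0 < K m) (hz : ∀ m i, 0 < z m i)
    (hR : ∀ m, Function.Injective (R m)) (hY : Function.Injective Y) :
    ∃ c l0 : ℝ, 0 < c ∧ 0 < l0 ∧ ∀ l, l0 ≤ l → c * l⁻¹ ^ 7 ≤ DeltaE γ z R Y l := by
  classical
  obtain ⟨l1, hl1, hinj⟩ := P_inj R Y hR hY
  set m0 : Fin n := ⟨0, by omega⟩ with hm0
  set m1 : Fin n := ⟨1, by omega⟩ with hm1
  have hm01 : m0 ≠ m1 := by rw [hm0, hm1]; simp
  set i0 : Fin (K m0) := ⟨0, hK m0⟩
  set i1 : Fin (K m1) := ⟨0, hK m1⟩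
  set p : (m : Fin n) × Fin (K m) := ⟨m0, i0⟩ with hp
  set q : (m : Fin n) × Fin (K m) := ⟨m1, i1⟩ with hq
  have hpq : p ≠ q := by
    rw [hp, hq]
    intro h
    exact hm01 (congrArg Sigma.fst h)
  set a : ℝ := z m0 i0 with ha
  set b : ℝ := z m1 i1 with hb
  have hapos : 0 < a := hz m0 i0
  have hbpos : 0 < b := hz m1 i1
  obtain ⟨r0, hr0, htwo⟩ := two_nuc hγ hapos hbpos
  set A : ℝ := ‖R m0 i0 - R m1 i1‖ with hA
  set D : ℝ := ‖Y m0 - Y m1‖ with hD
  have hA0 : 0 ≤ A := norm_nonneg _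
  have hD0 : 0 < D := norm_pos_iff.mpr (sub_ne_zero.mpr fun h => hm01 (hY h))
  refine ⟨r0 ^ 7 * (A + D)⁻¹ ^ 7, max (max l1 1) ((r0 + A) / D), by positivity,
    lt_max_of_lt_left (lt_max_of_lt_left hl1), fun l hl => ?_⟩
  have hl' : l1 ≤ l := le_trans (le_trans (le_max_left _ _) (le_max_left _ _)) hl
  have hl'' : 1 ≤ l := le_trans (le_trans (le_max_right _ _) (le_max_left _ _)) hl
  have hl3 : (r0 + A) / D ≤ l := le_trans (le_max_right _ _) hl
  have hlpos : 0 < l := by linarith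
  have hPinj := hinj l hl'
  set P : (m : Fin n) × Fin (K m) → X := fun i => R i.1 i.2 + l • Y i.1 with hP
  -- the family of molecules
  have hζ0 : ∀ m i, 0 ≤ zeta z m i := fun m i => by
    unfold zeta; split_ifs
    · exact (hz _ _).le
    · exact le_rfl
  have hζd : ∀ m m', m ≠ m' → ∀ i, zeta z m i * zeta z m' i = 0 := fun m m' hmm i => by
    unfold zeta
    by_cases h : i.1 = m
    · rw [if_neg (fun h' => hmm (h.symm.trans h')), mul_zero]
    · rw [if_neg h, zero_mul]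
  set s : Finset (Fin n) := (Finset.univ.erase m0).erase m1 with hs
  have hsum : ∀ f : Fin n → ℝ, ∑ m, f m = f m0 + (f m1 + ∑ m ∈ s, f m) := fun f => by
    rw [hs, Finset.add_sum_erase _ _ (Finset.mem_erase.mpr ⟨hm01.symm, Finset.mem_univ _⟩),
      Finset.add_sum_erase _ _ (Finset.mem_univ _)]
  have hall : (fun i : (m : Fin n) × Fin (K m) => z i.1 i.2) =
      fun i => (zeta z m0 i + zeta z m1 i) + ∑ m ∈ s, zeta z m i := by
    funext i
    have h1 := hsum (fun m => zeta z m i)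
    have h2 : ∑ m, zeta z m i = z i.1 i.2 := by
      unfold zeta
      rw [Finset.sum_ite_eq]
      simp
    rw [← h2, h1]; ring
  have hm0s : m0 ∉ s := fun h => by
    rw [hs] at h
    exact Finset.notMem_erase m0 _ (Finset.mem_of_mem_erase h)
  have hm1s : m1 ∉ s := Finset.notMem_erase _ _
  have step1 : TFE γ (fun i => zeta z m0 i + zeta z m1 i) P + ∑ m ∈ s, TFE γ (zeta z m) P ≤
      TFE γ (fun i : (m : Fin n) × Fin (K m) => z i.1 i.2) P := by
    rw [hall]
    have h1 := TFE_sum_superadd hγ hPinj hζ0 hζd s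
    have h2 := TFE_superadd hγ (β := fun i => zeta z m0 i + zeta z m1 i)
      (β' := fun i => ∑ m ∈ s, zeta z m i) hPinj
      (fun i => add_nonneg (hζ0 _ _) (hζ0 _ _)) (fun i => Finset.sum_nonneg fun m _ => hζ0 m i)
      (fun i => by
        rw [Finset.mul_sum]
        refine Finset.sum_eq_zero fun m hm => ?_
        rw [add_mul, hζd m0 m (fun h => hm0s (h ▸ hm)) i, hζd m1 m (fun h => hm1s (h ▸ hm)) i,
          add_zero])
    linarith
  -- reduction to the two nuclei
  set xa : (m : Fin n) × Fin (K m) → ℝ := fun i => if i = p then a else 0 with hxa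
  set yb : (m : Fin n) × Fin (K m) → ℝ := fun i => if i = q then b else 0 with hyb
  set xa' : (m : Fin n) × Fin (K m) → ℝ := fun i => if i = p then 0 else zeta z m0 i with hxa'
  set yb' : (m : Fin n) × Fin (K m) → ℝ := fun i => if i = q then 0 else zeta z m1 i with hyb'
  have hzp : zeta z m0 p = a := if_pos rfl
  have hzq : zeta z m1 q = b := if_pos rfl
  have e0 : (fun i => xa i + xa' i) = zeta z m0 := by
    funext i
    simp only [hxa, hxa']
    by_cases h : i = p
    · rw [if_pos h, if_pos h, h, hzp, add_zero]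
    · rw [if_neg h, if_neg h, zero_add]
  have e1 : (fun i => yb i + yb' i) = zeta z m1 := by
    funext i
    simp only [hyb, hyb']
    by_cases h : i = q
    · rw [if_pos h, if_pos h, h, hzq, add_zero]
    · rw [if_neg h, if_neg h, zero_add]
  have xa0 : ∀ i, 0 ≤ xa i := fun i => by simp only [hxa]; split_ifs <;> linarith
  have yb0 : ∀ i, 0 ≤ yb i := fun i => by simp only [hyb]; split_ifs <;> linarith
  have xa'0 : ∀ i, 0 ≤ xa' i := fun i => by
    simp only [hxa']; split_ifs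
    · exact le_rfl
    · exact hζ0 _ _
  have yb'0 : ∀ i, 0 ≤ yb' i := fun i => by
    simp only [hyb']; split_ifs
    · exact le_rfl
    · exact hζ0 _ _
  have d1 : ∀ i, xa' i * zeta z m1 i = 0 := fun i => by
    simp only [hxa']; split_ifs
    · rw [zero_mul]
    · exact hζd m0 m1 hm01 i
  have d2 : ∀ i, yb' i * xa i = 0 := fun i => by
    simp only [hyb', hxa]
    by_cases h : i = p
    · have h1 : zeta z m1 i = 0 := by
        have := hζd m0 m1 hm01 i
        rw [h, hzp] at this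
        rw [h]
        exact (mul_eq_zero.mp this).resolve_left hapos.ne'
      rw [h1]; simp
    · rw [if_neg h, mul_zero]
  have step2 := inter_mono hγ hPinj xa0 xa'0 (hζ0 m1) d1
  have step3 := inter_mono hγ hPinj yb0 yb'0 xa0 d2
  have e2 : (fun i => xa i + xa' i + zeta z m1 i) = fun i => zeta z m0 i + zeta z m1 i := by
    funext i; rw [← e0]
  have e3 : (fun i => yb i + yb' i + xa i) = fun i => xa i + zeta z m1 i := by
    funext i; rw [← e1]; ring
  have e4 : (fun i => yb i + xa i) = fun i => xa i + yb i := by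
    funext i; ring
  rw [e2, e0] at step2
  rw [e3, e1, e4] at step3
  -- two nuclei as a two point configuration
  have hg : Function.Injective ![p, q] := by
    intro i j hij
    fin_cases i <;> fin_cases j <;> simp_all
  have hrange : ∀ i, i ∉ Set.range ![p, q] → i ≠ p ∧ i ≠ q := fun i hi =>
    ⟨fun h => hi ⟨0, by simp [h]⟩, fun h => hi ⟨1, by simp [h]⟩⟩
  have hPP : (fun k => P (![p, q] k)) = ![P p, P q] := by
    funext k; fin_cases k <;> simp
  have f1 : TFE γ (fun i => xa i + yb i) P = TFE γ ![a, b] ![P p, P q] := by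
    rw [TFE_embed γ _ P ![p, q] hg (fun i hi => by
      obtain ⟨h1, h2⟩ := hrange i hi
      simp only [hxa, hyb]
      rw [if_neg h1, if_neg h2, add_zero]), hPP]
    congr 1
    funext k
    fin_cases k
    · simp [hxa, hyb, hpq]
    · simp [hxa, hyb, hpq.symm]
  have f2 : TFE γ xa P = TFE γ ![a, 0] ![P p, P q] := by
    rw [TFE_embed γ _ P ![p, q] hg (fun i hi => by
      obtain ⟨h1, h2⟩ := hrange i hi
      simp only [hxa]
      rw [if_neg h1]), hPP]
    congr 1
    funext k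
    fin_cases k
    · simp [hxa]
    · simp [hxa, hpq.symm]
  have f3 : TFE γ yb P = TFE γ ![0, b] ![P p, P q] := by
    rw [TFE_embed γ _ P ![p, q] hg (fun i hi => by
      obtain ⟨h1, h2⟩ := hrange i hi
      simp only [hyb]
      rw [if_neg h2]), hPP]
    congr 1
    funext k
    fin_cases k
    · simp [hyb, hpq]
    · simp [hyb]
  have hsub : P p - P q = (R m0 i0 - R m1 i1) + l • (Y m0 - Y m1) := by
    simp only [hP, hp, hq, smul_sub]; abel
  have hle : ‖P p - P q‖ ≤ l * (A + D) := by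
    rw [hsub]
    refine (norm_add_le _ _).trans ?_
    rw [norm_smul, Real.norm_of_nonneg hlpos.le, ← hA, ← hD]
    nlinarith
  have hge : r0 ≤ ‖P p - P q‖ := by
    rw [hsub]
    have h1 : ‖l • (Y m0 - Y m1)‖ = l * D := by
      rw [norm_smul, Real.norm_of_nonneg hlpos.le]
    have h2 := norm_sub_le ((R m0 i0 - R m1 i1) + l • (Y m0 - Y m1)) (R m0 i0 - R m1 i1)
    rw [add_sub_cancel_left, h1, ← hA] at h2
    rw [div_le_iff₀ hD0] at hl3
    linarith
  have hfin := htwo (P p) (P q) hge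
  have hpos : 0 < ‖P p - P q‖ := lt_of_lt_of_le hr0 hge
  have hinv : (A + D)⁻¹ * l⁻¹ ≤ ‖P p - P q‖⁻¹ := by
    rw [← mul_inv, mul_comm (A + D) l]
    exact inv_anti₀ hpos hle
  have hpow : ((A + D)⁻¹ * l⁻¹) ^ 7 ≤ ‖P p - P q‖⁻¹ ^ 7 :=
    pow_le_pow_left₀ (by positivity) hinv 7
  have hlast : r0 ^ 7 * (A + D)⁻¹ ^ 7 * l⁻¹ ^ 7 ≤ G2 γ a b (P p) (P q) := by
    calc r0 ^ 7 * (A + D)⁻¹ ^ 7 * l⁻¹ ^ 7 = r0 ^ 7 * ((A + D)⁻¹ * l⁻¹) ^ 7 := by ring
      _ ≤ r0 ^ 7 * ‖P p - P q‖⁻¹ ^ 7 := by gcongr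
      _ ≤ _ := hfin
  refine hlast.trans ?_
  unfold G2 DeltaE
  rw [← f1, ← f2, ← f3]
  have hmol : ∑ m, TFE γ (z m) (R m) = ∑ m, TFE γ (zeta z m) P :=
    Finset.sum_congr rfl fun m _ => (TFE_zeta γ z R Y l m).symm
  rw [hmol, hsum (fun m => TFE γ (zeta z m) P)]
  linarith

end

end Pool.Agent.Helper96.TF
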