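import Pool.Agent.Helper93.TF.Upper
import Pool.Agent.Helper93.TF.Lower

set_option autoImplicit false

namespace Pool.Agent.Helper96.TF

/-- the interaction energy of molecules of fixed shape at distance `l` is of order `l ^ (-7)` -/
theorem assembly {n : ℕ} {K : Fin n → ℕ} {γ : ℝ} (hγ : 0 < γ) (z : ∀ m, Fin (K m) → ℝ)
    (R : ∀ m, Fin (K m) → X) (Y : Fin n → X) (hn : 2 ≤ n) (hK : ∀ m, 0 < K m)
    (hz : ∀ m i, 0 < z m i) (hR : ∀ m, Function.Injective (R m)) (hY : Function.Injective Y) :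
    ∃ c C l0 : ℝ, 0 < c ∧ 0 < C ∧ 0 < l0 ∧ ∀ l, l0 ≤ l →
      c * l⁻¹ ^ 7 ≤ DeltaE γ z R Y l ∧ DeltaE γ z R Y l ≤ C * l⁻¹ ^ 7 := by
  obtain ⟨c, l1, hc, hl1, h1⟩ := lower_half hγ z R Y hn hK hz hR hY
  obtain ⟨C, l2, hC, _, h2⟩ := upper_half hγ z R Y (fun m i => (hz m i).le) hR hY
  exact ⟨c, C, max l1 l2, hc, hC, lt_max_of_lt_left hl1, fun l hl =>
    ⟨h1 l ((le_max_left _ _).trans hl), h2 l ((le_max_right _ _).trans hl)⟩⟩

end Pool.Agent.Helper96.TF
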