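import Pool.Agent.Helper93.TF.Lattice1

/-! Module F (part 2) for `MP_88afc7_mp`: localisation with an explicit cutoff. -/

set_option autoImplicit false

open MeasureTheory Filter Topology

namespace Pool.Agent.Helper96.TF

/-! ### the profile of the cutoff -/

theorem hasDerivAt_pos_pow (k : ℕ) (y : ℝ) :
    HasDerivAt (fun y : ℝ => (max y 0) ^ (k + 2)) (((k + 2 : ℕ) : ℝ) * (max y 0) ^ (k + 1)) y := by
  have hpow : ∀ y : ℝ, HasDerivAt (fun y : ℝ => y ^ (k + 2)) (((k + 2 : ℕ) : ℝ) * y ^ (k + 1)) y :=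
    fun y => hasDerivAt_pow (k + 2) y
  rcases lt_trichotomy y 0 with h | h | h
  · rw [max_eq_right h.le, zero_pow (by omega), mul_zero]
    apply (hasDerivAt_const y (0 : ℝ)).congr_of_eventuallyEq
    filter_upwards [gt_mem_nhds h] with z hz
    rw [max_eq_right hz.le, zero_pow (by omega)]
  · subst h
    rw [max_self, zero_pow (by omega), mul_zero]
    have h1 : HasDerivWithinAt (fun y : ℝ => (max y 0) ^ (k + 2)) 0 (Set.Iic 0) 0 := by
      apply (hasDerivWithinAt_const (0 : ℝ) (Set.Iic 0) (0 : ℝ)).congr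
      · intro z hz
        rw [max_eq_right hz, zero_pow (by omega)]
      · simp
    have h2 : HasDerivWithinAt (fun y : ℝ => (max y 0) ^ (k + 2)) 0 (Set.Ici 0) 0 := by
      have h3 := (hpow 0).hasDerivWithinAt (s := Set.Ici 0)
      rw [zero_pow (by omega), mul_zero] at h3
      apply h3.congr
      · intro z hz
        rw [max_eq_left hz]
      · simp
    have h4 := h1.union h2
    rwa [Set.Iic_union_Ici, hasDerivWithinAt_univ] at h4
  · rw [max_eq_left h.le]
    apply (hpow y).congr_of_eventuallyEq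
    filter_upwards [lt_mem_nhds h] with z hz
    rw [max_eq_left hz.le]

/-- the factor `u = (1 - s^10)_+`, `s = y_+` -/
noncomputable def cutU (y : ℝ) : ℝ := max (1 - (max y 0) ^ 10) 0

/-- the profile of the cutoff -/
noncomputable def cutG (y : ℝ) : ℝ := cutU y ^ 2

theorem cutU_nonneg (y : ℝ) : 0 ≤ cutU y := le_max_right _ _

theorem cutU_le_one (y : ℝ) : cutU y ≤ 1 := by
  have : 0 ≤ (max y 0) ^ 10 := by positivity
  exact max_le (by linarith) zero_le_one

theorem cutU_of_nonpos {y : ℝ} (h : y ≤ 0) : cutU y = 1 := by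
  unfold cutU; rw [max_eq_right h]; norm_num

theorem cutU_of_ge {y : ℝ} (h : 1 ≤ y) : cutU y = 0 := by
  unfold cutU
  rw [max_eq_left (by linarith : (0 : ℝ) ≤ y), max_eq_right]
  have : 1 ≤ y ^ 10 := one_le_pow₀ h
  linarith

theorem cutG_nonneg (y : ℝ) : 0 ≤ cutG y := sq_nonneg _

theorem cutG_le_one (y : ℝ) : cutG y ≤ 1 := by
  unfold cutG
  have h1 := cutU_nonneg y
  have h2 := cutU_le_one y
  nlinarith

theorem hasDerivAt_cutG (y : ℝ) : HasDerivAt cutG (-20 * cutU y * (max y 0) ^ 9) y := by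
  have h1 := hasDerivAt_pos_pow 8 y
  have h2 : HasDerivAt (fun y : ℝ => 1 - (max y 0) ^ 10) (-(10 * (max y 0) ^ 9)) y := by
    have := (hasDerivAt_const y (1 : ℝ)).sub h1
    norm_num at this
    exact this
  have h3 := hasDerivAt_pos_pow 0 (1 - (max y 0) ^ 10)
  have h4 := HasDerivAt.comp y h3 h2
  have h5 : cutG = (fun y => max y 0 ^ 2) ∘ (fun y => 1 - max y 0 ^ 10) := by
    funext y; rfl
  rw [h5]
  refine HasDerivAt.congr_deriv h4 ?_
  unfold cutU
  norm_num
  ring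

theorem lip_cutG : LipschitzWith 20 cutG := by
  apply lipschitzWith_of_nnnorm_deriv_le (fun y => (hasDerivAt_cutG y).differentiableAt)
  intro y
  rw [(hasDerivAt_cutG y).deriv, ← NNReal.coe_le_coe, coe_nnnorm, Real.norm_eq_abs]
  push_cast
  rw [abs_mul, abs_mul, abs_of_nonneg (cutU_nonneg y),
    abs_of_nonneg (by positivity : 0 ≤ (max y 0) ^ 9)]
  norm_num
  rcases le_or_gt 1 y with h | h
  · rw [cutU_of_ge h]; norm_num
  · have h1 : max y 0 ≤ 1 := max_le h.le zero_le_one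
    have h2 : (max y 0) ^ 9 ≤ 1 := pow_le_one₀ (le_max_right _ _) h1
    have h3 := cutU_nonneg y
    have h4 := cutU_le_one y
    nlinarith

/-- scaled radius -/
noncomputable def cutY (w : ℝ) (a x : X) : ℝ := 2 * (‖x - a‖ / w - 1)

/-- the cutoff -/
noncomputable def cut (w : ℝ) (a x : X) : ℝ := cutG (cutY w a x)

theorem lip_cut {w : ℝ} (hw : 0 < w) (a : X) : ∃ C, LipschitzWith C (cut w a) := by
  refine ⟨20 * (2 * Real.toNNReal w⁻¹), lip_cutG.comp ?_⟩
  apply LipschitzWith.of_dist_le_mul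
  intro x y
  push_cast
  rw [Real.coe_toNNReal _ (by positivity), Real.dist_eq]
  unfold cutY
  have h1 : 2 * (‖x - a‖ / w - 1) - 2 * (‖y - a‖ / w - 1) = 2 * w⁻¹ * (‖x - a‖ - ‖y - a‖) := by
    field_simp; ring
  rw [h1, abs_mul, abs_of_pos (by positivity)]
  refine mul_le_mul_of_nonneg_left ?_ (by positivity)
  have := abs_norm_sub_norm_le (x - a) (y - a)
  rwa [sub_sub_sub_cancel_right, ← dist_eq_norm] at this

theorem test_cut {w : ℝ} (hw : 0 < w) (a : X) {φ : X → ℝ} (h : Test φ) :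
    Test (fun x => cut w a x * φ x) := by
  obtain ⟨K, hK⟩ := lip_cut hw a
  have hc := h.cont
  obtain ⟨⟨C, hC⟩, hs⟩ := h
  obtain ⟨B, hB⟩ := hs.exists_bound_of_continuous hc
  refine ⟨⟨K * Real.toNNReal B + C, ?_⟩, hs.mul_left⟩
  apply LipschitzWith.of_dist_le_mul
  intro x y
  have hB0 : 0 ≤ B := (norm_nonneg _).trans (hB 0)
  push_cast
  rw [Real.coe_toNNReal _ hB0, Real.dist_eq]
  have e1 : cut w a x * φ x - cut w a y * φ y =
      (cut w a x - cut w a y) * φ x + cut w a y * (φ x - φ y) := by ring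
  rw [e1]
  refine (abs_add_le _ _).trans ?_
  rw [abs_mul, abs_mul, add_mul]
  have h1 : |cut w a x - cut w a y| ≤ K * dist x y := by
    have := hK.dist_le_mul x y
    rwa [Real.dist_eq] at this
  have h2 : |φ x| ≤ B := hB x
  have h3 : |cut w a y| ≤ 1 := by
    rw [cut, abs_of_nonneg (cutG_nonneg _)]; exact cutG_le_one _
  have h4 : |φ x - φ y| ≤ C * dist x y := by
    have := hC.dist_le_mul x y
    rwa [Real.dist_eq] at this
  have hd : 0 ≤ dist x y := dist_nonneg
  have h5 : |cut w a x - cut w a y| * |φ x| ≤ K * dist x y * B := by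
    apply mul_le_mul h1 h2 (abs_nonneg _) (by positivity)
  have h6 : |cut w a y| * |φ x - φ y| ≤ 1 * (C * dist x y) := by
    apply mul_le_mul h3 h4 (abs_nonneg _) zero_le_one
  nlinarith

/-! ### derivatives of the cutoff -/

theorem norm_line (y : X) (i : Fin 3) (t : ℝ) :
    ‖y + t • e i‖ ^ 2 = ‖y‖ ^ 2 + 2 * t * y i + t ^ 2 := by
  rw [EuclideanSpace.real_norm_sq_eq, EuclideanSpace.real_norm_sq_eq]
  have h : ∀ j, (y + t • e i) j = y j + t * (if j = i then 1 else 0) := by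
    intro j
    simp [e]
  simp only [h]
  fin_cases i <;> simp [Fin.sum_univ_three] <;> ring

theorem hasDerivAt_norm_line {x a : X} (hxa : x ≠ a) (i : Fin 3) :
    HasDerivAt (fun t : ℝ => ‖x + t • e i - a‖) ((x - a) i / ‖x - a‖) 0 := by
  have hpos : 0 < ‖x - a‖ := norm_pos_iff.2 (sub_ne_zero.2 hxa)
  have h1 : HasDerivAt (fun t : ℝ => ‖x - a‖ ^ 2 + 2 * t * (x - a) i + t ^ 2)
      (2 * (x - a) i) 0 := by
    have h2 : HasDerivAt (fun t : ℝ => 2 * t * (x - a) i) (2 * (x - a) i) 0 := by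
      have := ((hasDerivAt_id (0 : ℝ)).const_mul 2).mul_const ((x - a) i)
      simpa using this
    have h3 : HasDerivAt (fun t : ℝ => t ^ 2) 0 0 := by
      have := hasDerivAt_pow 2 (0 : ℝ)
      simpa using this
    have := (h2.const_add (‖x - a‖ ^ 2)).add h3
    rw [add_zero] at this
    exact this
  have h4 := h1.sqrt (by simp; exact sub_ne_zero.2 hxa)
  have h5 : (fun t : ℝ => ‖x + t • e i - a‖) =
      fun t : ℝ => Real.sqrt (‖x - a‖ ^ 2 + 2 * t * (x - a) i + t ^ 2) := by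
    funext t
    rw [← norm_line, Real.sqrt_sq (norm_nonneg _)]
    congr 1
    abel
  rw [h5]
  refine h4.congr_deriv ?_
  have h6 : ‖x - a‖ ^ 2 + 2 * 0 * (x - a) i + 0 ^ 2 = ‖x - a‖ ^ 2 := by ring
  rw [h6, Real.sqrt_sq hpos.le]
  field_simp

/-- the line derivative of the cutoff -/
noncomputable def dcut (w : ℝ) (a x : X) (i : Fin 3) : ℝ :=
  (-20 * cutU (cutY w a x) * (max (cutY w a x) 0) ^ 9) * (2 * ((x - a) i / ‖x - a‖ / w))

theorem hasLineDerivAt_cut {w : ℝ} {x a : X} (hxa : x ≠ a) (i : Fin 3) :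
    HasLineDerivAt ℝ (cut w a) (dcut w a x i) x (e i) := by
  unfold HasLineDerivAt dcut
  have h1 := hasDerivAt_norm_line hxa i
  have h2 : HasDerivAt (fun t : ℝ => cutY w a (x + t • e i))
      (2 * ((x - a) i / ‖x - a‖ / w)) 0 := by
    unfold cutY
    exact ((h1.div_const w).sub_const 1).const_mul 2
  have h3 : HasDerivAt cutG (-20 * cutU (cutY w a x) * (max (cutY w a x) 0) ^ 9)
      (cutY w a (x + (0 : ℝ) • e i)) := by
    rw [zero_smul, add_zero]
    exact hasDerivAt_cutG _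
  exact HasDerivAt.comp (0 : ℝ) h3 h2

theorem sum_dcut {w : ℝ} (hw : 0 < w) {x a : X} (hxa : x ≠ a) :
    ∑ i, dcut w a x i ^ 2 = 1600 * cutU (cutY w a x) ^ 2 * (max (cutY w a x) 0) ^ 18 / w ^ 2 := by
  have hpos : 0 < ‖x - a‖ := norm_pos_iff.2 (sub_ne_zero.2 hxa)
  have h1 := EuclideanSpace.real_norm_sq_eq (x - a)
  have h2 : ∀ i, dcut w a x i ^ 2 = (1600 * cutU (cutY w a x) ^ 2 * (max (cutY w a x) 0) ^ 18 / w ^ 2 /
      ‖x - a‖ ^ 2) * (x - a) i ^ 2 := by
    intro i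
    unfold dcut
    field_simp
    ring
  simp only [h2]
  rw [← Finset.mul_sum, ← h1]
  field_simp

/-! ### the pointwise inequality -/

theorem young45 {A B y : ℝ} (hA : 0 ≤ A) (hB : 0 < B) (hy : 0 ≤ y) :
    A * y ^ 4 ≤ B * y ^ 5 + A ^ 5 / B ^ 4 := by
  rcases le_total A (B * y) with h | h
  · have h1 : A * y ^ 4 ≤ B * y * y ^ 4 := mul_le_mul_of_nonneg_right h (by positivity)
    have h2 : 0 ≤ A ^ 5 / B ^ 4 := by positivity
    nlinarith
  · have h1 : y ≤ A / B := by rw [le_div_iff₀ hB]; linarith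
    have h2 : y ^ 4 ≤ (A / B) ^ 4 := pow_le_pow_left₀ hy h1 4
    have h3 : A * y ^ 4 ≤ A * (A / B) ^ 4 := mul_le_mul_of_nonneg_left h2 hA
    have h4 : A * (A / B) ^ 4 = A ^ 5 / B ^ 4 := by field_simp
    have h5 : 0 ≤ B * y ^ 5 := by positivity
    linarith

theorem rpow52 {t : ℝ} (ht : 0 ≤ t) : t ^ (5 / 2 : ℝ) = Real.sqrt t ^ 5 := by
  rw [Real.sqrt_eq_rpow, ← Real.rpow_natCast, ← Real.rpow_mul ht]
  norm_num


/-- one coordinate: `(χ g + ph v)² ≤ g² + ph² v² / (1 - χ²)` -/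
theorem coord_ineq {χ g ph v D : ℝ} (hD : 0 < D) (hDχ : D = 1 - χ ^ 2) :
    (χ * g + ph * v) ^ 2 ≤ g ^ 2 + ph ^ 2 * v ^ 2 / D := by
  have h1 : g ^ 2 + ph ^ 2 * v ^ 2 / D - (χ * g + ph * v) ^ 2 = (D * g - χ * ph * v) ^ 2 / D := by
    rw [eq_div_iff hD.ne', sub_mul, add_mul, div_mul_cancel₀ _ hD.ne']
    rw [hDχ]; ring
  have h2 : 0 ≤ (D * g - χ * ph * v) ^ 2 / D := by positivity
  linarith

/-- the pointwise inequality for one cutoff -/
theorem pt_ineq {A B w ph s u : ℝ} (hA : 0 ≤ A) (hB : 0 < B) (hw : 0 < w) (hph : 0 ≤ ph)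
    (hs : 0 ≤ s) (hu : u = max (1 - s ^ 10) 0) (g v : Fin 3 → ℝ)
    (hv : ∑ i, v i ^ 2 = 1600 * u ^ 2 * s ^ 18 / w ^ 2) :
    A * ∑ i, (u ^ 2 * g i + ph * v i) ^ 2 + B * (u ^ 2 * ph) ^ (5 / 2 : ℝ) ≤
      A * ∑ i, g i ^ 2 + B * ph ^ (5 / 2 : ℝ) + (1600 * A) ^ 5 / B ^ 4 * w⁻¹ ^ 10 := by
  have hC : 0 ≤ (1600 * A) ^ 5 / B ^ 4 * w⁻¹ ^ 10 := by positivity
  have hvi : ∀ i, 0 ≤ v i ^ 2 := fun i => sq_nonneg _
  rcases eq_or_lt_of_le hs with h0 | h0
  · -- s = 0
    have hu1 : u = 1 := by rw [hu, ← h0]; norm_num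
    have hv0 : ∀ i, v i = 0 := by
      have h1 : ∑ i, v i ^ 2 = 0 := by rw [hv, ← h0]; ring
      have h2 := (Finset.sum_eq_zero_iff_of_nonneg (fun i _ => hvi i)).1 h1
      intro i
      exact pow_eq_zero_iff (two_ne_zero) |>.1 (h2 i (Finset.mem_univ i))
    simp only [hv0, hu1, one_pow, one_mul, mul_zero, add_zero]
    linarith
  · rcases le_or_gt 1 s with h1 | h1
    · -- u = 0
      have hu0 : u = 0 := by
        rw [hu, max_eq_right]
        have : 1 ≤ s ^ 10 := one_le_pow₀ h1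
        linarith
      have hv0 : ∀ i, v i = 0 := by
        have h1 : ∑ i, v i ^ 2 = 0 := by rw [hv, hu0]; ring
        have h2 := (Finset.sum_eq_zero_iff_of_nonneg (fun i _ => hvi i)).1 h1
        intro i
        exact pow_eq_zero_iff (two_ne_zero) |>.1 (h2 i (Finset.mem_univ i))
      have h3 : (0 : ℝ) ^ (5 / 2 : ℝ) = 0 := Real.zero_rpow (by norm_num)
      simp only [hv0, hu0, mul_zero, add_zero, ne_eq, OfNat.ofNat_ne_zero, not_false_eq_true,
        zero_pow, zero_mul, h3, Finset.sum_const_zero]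
      have h4 : 0 ≤ A * ∑ i, g i ^ 2 := mul_nonneg hA (Finset.sum_nonneg fun i _ => sq_nonneg _)
      have h5 : 0 ≤ B * ph ^ (5 / 2 : ℝ) := mul_nonneg hB.le (Real.rpow_nonneg hph _)
      linarith
    · -- 0 < s < 1
      have hs10 : s ^ 10 < 1 := pow_lt_one₀ hs h1 (by norm_num)
      have hs10' : 0 < s ^ 10 := by positivity
      have huu : u = 1 - s ^ 10 := by rw [hu, max_eq_left (by linarith)]
      have hu0 : 0 < u := by rw [huu]; linarith
      have hu1 : u ≤ 1 := by rw [huu]; linarith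
      have hu2 : u ^ 2 ≤ u := by nlinarith
      have hu4 : (u ^ 2) ^ 2 ≤ u := by nlinarith [sq_nonneg u]
      have hD : s ^ 10 ≤ 1 - (u ^ 2) ^ 2 := by linarith [huu]
      have hDpos : 0 < 1 - (u ^ 2) ^ 2 := lt_of_lt_of_le hs10' hD
      have h2 : ∑ i, (u ^ 2 * g i + ph * v i) ^ 2 ≤ ∑ i, g i ^ 2 +
          ph ^ 2 * (∑ i, v i ^ 2) / (1 - (u ^ 2) ^ 2) := by
        rw [Finset.mul_sum, Finset.sum_div, ← Finset.sum_add_distrib]
        exact Finset.sum_le_sum fun i _ => coord_ineq hDpos rfl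
      have h3 : ph ^ 2 * (∑ i, v i ^ 2) / (1 - (u ^ 2) ^ 2) ≤ 1600 * s ^ 8 * ph ^ 2 / w ^ 2 := by
        rw [hv]
        calc ph ^ 2 * (1600 * u ^ 2 * s ^ 18 / w ^ 2) / (1 - (u ^ 2) ^ 2)
            ≤ ph ^ 2 * (1600 * u ^ 2 * s ^ 18 / w ^ 2) / s ^ 10 := by
              apply div_le_div_of_nonneg_left (by positivity) hs10' hD
          _ = u ^ 2 * (1600 * s ^ 8 * ph ^ 2 / w ^ 2) := by field_simp
          _ ≤ 1 * (1600 * s ^ 8 * ph ^ 2 / w ^ 2) := by
              apply mul_le_mul_of_nonneg_right (by linarith) (by positivity)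
          _ = _ := one_mul _
      have h4 : (u ^ 2 * ph) ^ (5 / 2 : ℝ) ≤ (1 - s ^ 10) * ph ^ (5 / 2 : ℝ) := by
        rw [Real.mul_rpow (by positivity) hph]
        apply mul_le_mul_of_nonneg_right _ (Real.rpow_nonneg hph _)
        calc (u ^ 2) ^ (5 / 2 : ℝ) ≤ (u ^ 2) ^ (1 : ℝ) :=
              Real.rpow_le_rpow_of_exponent_ge (by positivity) (by linarith) (by norm_num)
          _ = u ^ 2 := Real.rpow_one _
          _ ≤ 1 - s ^ 10 := by linarith [huu]
      have h5 := young45 (A := 1600 * A / w ^ 2) (B := B) (y := s ^ 2 * Real.sqrt ph)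
        (by positivity) hB (by positivity)
      have h6 : Real.sqrt ph ^ 4 = ph ^ 2 := by
        have := Real.sq_sqrt hph
        calc Real.sqrt ph ^ 4 = (Real.sqrt ph ^ 2) ^ 2 := by ring
          _ = ph ^ 2 := by rw [this]
      have h7 : 1600 * A / w ^ 2 * (s ^ 2 * Real.sqrt ph) ^ 4 =
          A * (1600 * s ^ 8 * ph ^ 2 / w ^ 2) := by
        rw [mul_pow, h6]; ring
      have h8 : B * (s ^ 2 * Real.sqrt ph) ^ 5 = B * (s ^ 10 * ph ^ (5 / 2 : ℝ)) := by
        rw [rpow52 hph]; ring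
      have h9 : (1600 * A / w ^ 2) ^ 5 / B ^ 4 = (1600 * A) ^ 5 / B ^ 4 * w⁻¹ ^ 10 := by
        field_simp
      rw [h7, h8, h9] at h5
      have h10 : A * ∑ i, (u ^ 2 * g i + ph * v i) ^ 2 ≤ A * (∑ i, g i ^ 2 +
          1600 * s ^ 8 * ph ^ 2 / w ^ 2) := mul_le_mul_of_nonneg_left (h2.trans (by linarith)) hA
      have h11 : B * (u ^ 2 * ph) ^ (5 / 2 : ℝ) ≤ B * ((1 - s ^ 10) * ph ^ (5 / 2 : ℝ)) :=
        mul_le_mul_of_nonneg_left h4 hB.le
      nlinarith

/-- density of the quadratic and the power term -/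
noncomputable def dirPot (κ : ℝ) (φ : X → ℝ) (x : X) : ℝ :=
  (1 / (8 * Real.pi)) * gg φ φ x + (2 / 5) * κ * (max (φ x) 0) ^ (5 / 2 : ℝ)

theorem Test.integrable_dirPot {κ : ℝ} {φ : X → ℝ} (h : Test φ) : Integrable (dirPot κ φ) :=
  ((h.integrable_gg h).const_mul _).add ((h.integrable_pow (by norm_num)).const_mul _)

theorem integral_dirPot {κ : ℝ} {φ : X → ℝ} (h : Test φ) : ∫ x, dirPot κ φ x = Dir φ + Pot κ φ := by
  unfold dirPot Dir Pot
  rw [integral_add ((h.integrable_gg h).const_mul _) ((h.integrable_pow (by norm_num)).const_mul _),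
    integral_const_mul, integral_const_mul]

theorem dirPot_nonneg {κ : ℝ} (hκ : 0 ≤ κ) (φ : X → ℝ) (x : X) : 0 ≤ dirPot κ φ x := by
  have := Real.pi_pos
  have h1 := gg_nonneg φ x
  have h2 : 0 ≤ (max (φ x) 0) ^ (5 / 2 : ℝ) := Real.rpow_nonneg (le_max_right _ _) _
  unfold dirPot
  positivity

theorem gg_cut {w : ℝ} {a x : X} (hxa : x ≠ a) {φ : X → ℝ}
    (h : ∀ i, LineDifferentiableAt ℝ φ x (e i)) :
    gg (fun x => cut w a x * φ x) (fun x => cut w a x * φ x) x =
      ∑ i, (cut w a x * lineDeriv ℝ φ x (e i) + φ x * dcut w a x i) ^ 2 := by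
  unfold gg
  refine Finset.sum_congr rfl fun i _ => ?_
  have h1 : HasLineDerivAt ℝ (fun x => cut w a x * φ x)
      (dcut w a x i * φ x + cut w a x * lineDeriv ℝ φ x (e i)) x (e i) := by
    have h2 : HasDerivAt (fun t : ℝ => cut w a (x + t • e i)) (dcut w a x i) 0 :=
      hasLineDerivAt_cut hxa i
    have h3 : HasDerivAt (fun t : ℝ => φ (x + t • e i)) (lineDeriv ℝ φ x (e i)) 0 :=
      (h i).hasLineDerivAt
    have h4 := h2.mul h3
    rw [zero_smul, add_zero] at h4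
    exact h4
  rw [h1.lineDeriv]
  ring

/-- the constant of the localisation error -/
noncomputable def locC (κ : ℝ) : ℝ := (1600 * (1 / (8 * Real.pi))) ^ 5 / ((2 / 5) * κ) ^ 4

theorem locC_nonneg (κ : ℝ) : 0 ≤ locC κ := by
  have := Real.pi_pos
  unfold locC
  apply div_nonneg (by positivity)
  have : ((2 / 5) * κ) ^ 4 = (((2 / 5) * κ) ^ 2) ^ 2 := by ring
  rw [this]; positivity

theorem dirPot_cut_le {κ : ℝ} (hκ : 0 < κ) {w : ℝ} (hw : 0 < w) {a x : X} (hxa : x ≠ a) {φ : X → ℝ}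
    (hφ : 0 ≤ φ x) (h : ∀ i, LineDifferentiableAt ℝ φ x (e i)) :
    dirPot κ (fun x => cut w a x * φ x) x ≤ dirPot κ φ x + locC κ * w⁻¹ ^ 10 := by
  have hpi := Real.pi_pos
  have h1 := pt_ineq (A := 1 / (8 * Real.pi)) (B := (2 / 5) * κ) (w := w) (ph := φ x)
    (s := max (cutY w a x) 0) (u := cutU (cutY w a x)) (by positivity) (by positivity) hw hφ
    (le_max_right _ _) rfl (fun i => lineDeriv ℝ φ x (e i)) (fun i => dcut w a x i)
    (sum_dcut hw hxa)
  unfold dirPot locC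
  have hmul : 0 ≤ cut w a x * φ x := mul_nonneg (cutG_nonneg _) hφ
  rw [gg_cut hxa h, max_eq_left hφ]
  simp only [max_eq_left hmul]
  have h2 : gg φ φ x = ∑ i, (lineDeriv ℝ φ x (e i)) ^ 2 := by
    unfold gg
    exact Finset.sum_congr rfl fun i _ => by ring
  rw [h2]
  exact h1

theorem dirPot_cut_zero {κ : ℝ} {w : ℝ} (hw : 0 < w) {a x : X} (hxa : x ≠ a) {φ : X → ℝ}
    (h : ∀ i, LineDifferentiableAt ℝ φ x (e i)) (hfar : 3 / 2 * w ≤ ‖x - a‖) :
    dirPot κ (fun x => cut w a x * φ x) x = 0 := by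
  have hy : 1 ≤ cutY w a x := by
    unfold cutY
    have : 3 / 2 ≤ ‖x - a‖ / w := by rw [le_div_iff₀ hw]; exact hfar
    linarith
  have hu := cutU_of_ge hy
  have hc : cut w a x = 0 := by unfold cut cutG; rw [hu]; norm_num
  have hd : ∀ i, dcut w a x i = 0 := by intro i; unfold dcut; rw [hu]; ring
  unfold dirPot
  rw [gg_cut hxa h]
  have h3 : (0 : ℝ) ^ (5 / 2 : ℝ) = 0 := Real.zero_rpow (by norm_num)
  simp only [hc, hd, zero_mul, mul_zero, add_zero, max_self, h3]
  simp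

theorem sum_dirPot_cut {κ : ℝ} (hκ : 0 < κ) {n : ℕ} {w : ℝ} (hw : 0 < w) {a : Fin n → X}
    (ha : ∀ p q, p ≠ q → 3 * w ≤ ‖a p - a q‖) {x : X} (hx : ∀ p, x ≠ a p) {φ : X → ℝ}
    (hφ : 0 ≤ φ x) (h : ∀ i, LineDifferentiableAt ℝ φ x (e i)) :
    ∑ p, dirPot κ (fun x => cut w (a p) x * φ x) x ≤ dirPot κ φ x +
      ∑ p, (Metric.closedBall (a p) (2 * w)).indicator (fun _ => locC κ * w⁻¹ ^ 10) x := by
  classical
  have hind : ∀ p, 0 ≤ (Metric.closedBall (a p) (2 * w)).indicator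
      (fun _ => locC κ * w⁻¹ ^ 10) x := by
    intro p
    apply Set.indicator_nonneg
    intro y _
    exact mul_nonneg (locC_nonneg κ) (by positivity)
  by_cases hex : ∃ p, ‖x - a p‖ < 3 / 2 * w
  · obtain ⟨p, hp⟩ := hex
    have hother : ∀ q, q ≠ p → dirPot κ (fun x => cut w (a q) x * φ x) x = 0 := by
      intro q hq
      apply dirPot_cut_zero hw (hx q) h
      have h1 := ha p q (Ne.symm hq)
      have h2 : ‖a p - a q‖ ≤ ‖x - a p‖ + ‖x - a q‖ := by
        have : a p - a q = (x - a q) - (x - a p) := by abel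
        rw [this]
        exact (norm_sub_le _ _).trans (by linarith)
      linarith
    rw [Finset.sum_eq_single p (fun q _ hq => hother q hq) (fun hn => absurd (Finset.mem_univ p) hn)]
    have h1 := dirPot_cut_le hκ hw (hx p) hφ h
    have h2 : locC κ * w⁻¹ ^ 10 ≤ ∑ p, (Metric.closedBall (a p) (2 * w)).indicator
        (fun _ => locC κ * w⁻¹ ^ 10) x := by
      have h3 : (Metric.closedBall (a p) (2 * w)).indicator (fun _ => locC κ * w⁻¹ ^ 10) x =
          locC κ * w⁻¹ ^ 10 := by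
        apply Set.indicator_of_mem
        rw [Metric.mem_closedBall, dist_eq_norm]
        linarith
      refine h3.symm.le.trans ?_
      exact Finset.single_le_sum (fun q _ => hind q) (Finset.mem_univ p)
    linarith
  · push Not at hex
    rw [Finset.sum_eq_zero (fun p _ => dirPot_cut_zero hw (hx p) h (hex p))]
    have h1 := dirPot_nonneg hκ.le φ x
    have h2 : 0 ≤ ∑ p, (Metric.closedBall (a p) (2 * w)).indicator
        (fun _ => locC κ * w⁻¹ ^ 10) x := Finset.sum_nonneg fun p _ => hind p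
    linarith

/-- the constant of `T_local` -/
noncomputable def locC0 (κ : ℝ) : ℝ := 8 * locC κ * volume.real (Metric.ball (0 : X) 1)

theorem locC0_nonneg (κ : ℝ) : 0 ≤ locC0 κ := by
  unfold locC0
  have := locC_nonneg κ
  positivity

theorem vol_ball {w : ℝ} (hw : 0 < w) (a : X) :
    volume.real (Metric.closedBall a (2 * w)) = 8 * w ^ 3 * volume.real (Metric.ball (0 : X) 1) := by
  rw [Measure.addHaar_real_closedBall volume a (by positivity), finrank_euclideanSpace,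
    Fintype.card_fin]
  ring

theorem integral_indicator_ball {w : ℝ} (hw : 0 < w) (a : X) (c : ℝ) :
    Integrable ((Metric.closedBall a (2 * w)).indicator (fun _ => c)) ∧
    ∫ x, (Metric.closedBall a (2 * w)).indicator (fun _ => c) x =
      8 * w ^ 3 * volume.real (Metric.ball (0 : X) 1) * c := by
  constructor
  · rw [integrable_indicator_iff Metric.isClosed_closedBall.measurableSet]
    exact integrableOn_const (measure_closedBall_lt_top.ne)
  · rw [integral_indicator Metric.isClosed_closedBall.measurableSet, setIntegral_const, vol_ball hw,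
      smul_eq_mul]

theorem J_local {κ : ℝ} (hκ : 0 < κ) {n : ℕ} {w : ℝ} (hw : 0 < w) {a : Fin n → X}
    {ν : Fin n → X → ℝ} (ha : ∀ p q, p ≠ q → 3 * w ≤ ‖a p - a q‖) (hν : ∀ p, Nice (ν p))
    (hsupp : ∀ p x, w ≤ ‖x - a p‖ → ν p x = 0) {φ : X → ℝ} (h : Test φ) (hφ : ∀ x, 0 ≤ φ x) :
    J κ (fun x => ∑ p, ν p x) φ ≤ ∑ p, J κ (ν p) (fun x => cut w (a p) x * φ x) +
      n * locC0 κ * w⁻¹ ^ 7 := by
  have hT : ∀ p, Test (fun x => cut w (a p) x * φ x) := fun p => test_cut hw (a p) h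
  -- the linear term
  have h1 : ∫ x, φ x * ∑ p, ν p x = ∑ p, ∫ x, (cut w (a p) x * φ x) * ν p x := by
    rw [← integral_finsetSum _ (fun p _ => (hT p).integrable_dens (hν p).cont)]
    refine integral_congr_ae (Filter.Eventually.of_forall fun x => ?_)
    simp only
    rw [Finset.mul_sum]
    refine Finset.sum_congr rfl fun p _ => ?_
    rcases le_or_gt w ‖x - a p‖ with hx | hx
    · rw [hsupp p x hx]; ring
    · have : cut w (a p) x = 1 := by
        unfold cut cutG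
        rw [cutU_of_nonpos]
        · norm_num
        · unfold cutY
          have : ‖x - a p‖ / w ≤ 1 := by rw [div_le_one hw]; exact hx.le
          linarith
      rw [this, one_mul]
  -- the other terms
  have h2 : ∑ p, (Dir (fun x => cut w (a p) x * φ x) + Pot κ (fun x => cut w (a p) x * φ x)) ≤
      Dir φ + Pot κ φ + n * locC0 κ * w⁻¹ ^ 7 := by
    have e1 : ∑ p, (Dir (fun x => cut w (a p) x * φ x) + Pot κ (fun x => cut w (a p) x * φ x)) =
        ∫ x, ∑ p, dirPot κ (fun x => cut w (a p) x * φ x) x := by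
      rw [integral_finsetSum _ (fun p _ => (hT p).integrable_dirPot)]
      exact Finset.sum_congr rfl fun p _ => (integral_dirPot (hT p)).symm
    have e2 : Dir φ + Pot κ φ + n * locC0 κ * w⁻¹ ^ 7 = ∫ x, (dirPot κ φ x +
        ∑ p, (Metric.closedBall (a p) (2 * w)).indicator (fun _ => locC κ * w⁻¹ ^ 10) x) := by
      rw [integral_add h.integrable_dirPot
        (integrable_finsetSum _ fun p _ => (integral_indicator_ball hw (a p) _).1),
        integral_dirPot h, integral_finsetSum _ fun p _ => (integral_indicator_ball hw (a p) _).1]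
      simp only [(integral_indicator_ball hw (a _) _).2]
      rw [Finset.sum_const, Finset.card_univ, Fintype.card_fin, nsmul_eq_mul]
      unfold locC0
      field_simp
    rw [e1, e2]
    apply integral_mono_ae
    · exact integrable_finsetSum _ fun p _ => (hT p).integrable_dirPot
    · exact h.integrable_dirPot.add
        (integrable_finsetSum _ fun p _ => (integral_indicator_ball hw (a p) _).1)
    · have hne : ∀ᵐ x : X, ∀ p, x ≠ a p := by
        rw [ae_all_iff]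
        intro p
        exact (measure_singleton (a p) : volume {a p} = 0) |> compl_mem_ae_iff.2
      filter_upwards [h.ae_diff, hne] with x hx1 hx2
      exact sum_dirPot_cut hκ hw ha hx2 (hφ x) hx1
  rw [Finset.sum_add_distrib] at h2
  unfold J
  rw [h1, Finset.sum_sub_distrib, Finset.sum_sub_distrib]
  linarith

theorem T_local {κ : ℝ} (hκ : 0 < κ) : ∃ C0 : ℝ, 0 ≤ C0 ∧ ∀ (n : ℕ) (w : ℝ) (a : Fin n → X)
    (ν : Fin n → X → ℝ), 0 < w → (∀ p q, p ≠ q → 3 * w ≤ ‖a p - a q‖) →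
      (∀ p, Nice (ν p)) → (∀ p x, w ≤ ‖x - a p‖ → ν p x = 0) →
      T κ (fun x => ∑ p, ν p x) ≤ ∑ p, T κ (ν p) + n * C0 * w⁻¹ ^ 7 := by
  refine ⟨locC0 κ, locC0_nonneg κ, ?_⟩
  intro n w a ν hw ha hν hsupp
  apply T_le
  intro φ hφ
  have hp : Test (fun x => max (φ x) 0) := test_max hφ test_zero
  refine (J_pos_part (Nice.sum _ hν) hφ).trans ?_
  refine (J_local hκ hw ha hν hsupp hp (fun x => le_max_right _ _)).trans ?_
  have : ∑ p, J κ (ν p) (fun x => cut w (a p) x * max (φ x) 0) ≤ ∑ p, T κ (ν p) :=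
    Finset.sum_le_sum fun p _ => J_le_T hκ (hν p) (test_cut hw (a p) hp)
  linarith

end Pool.Agent.Helper96.TF
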