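import Pool.Agent.Helper93.TF.Lattice1
import Pool.Agent.Helper93.TF.Lattice2

/-! Module F for `MP_88afc7_mp`: `Nice`, `T_bddAbove`, `T_zero`, `J_pos_part`, `T_supermod`,
`T_local`. -/
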