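import Pool.Agent.Helper96.TF.Defs

/-! Module F (part 1) for `MP_88afc7_mp`: the dual functional, bounds and lattice operations. -/

set_option autoImplicit false

open MeasureTheory Filter Topology

namespace Pool.Agent.Helper96.TF

/-- nonnegative continuous densities with compact support -/
structure Nice (ν : X → ℝ) : Prop where
  cont : Continuous ν
  nonneg : ∀ x, 0 ≤ ν x
  supp : HasCompactSupport ν

theorem Test.cont {φ : X → ℝ} (h : Test φ) : Continuous φ := by
  obtain ⟨⟨C, hC⟩, -⟩ := h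
  exact hC.continuous

theorem test_zero : Test (fun _ => 0) :=
  ⟨⟨0, LipschitzWith.const 0⟩, HasCompactSupport.zero⟩

theorem test_max {φ ψ : X → ℝ} (h : Test φ) (h' : Test ψ) : Test (fun x => max (φ x) (ψ x)) := by
  obtain ⟨⟨C, hC⟩, hs⟩ := h
  obtain ⟨⟨C', hC'⟩, hs'⟩ := h'
  refine ⟨⟨_, hC.max hC'⟩, ?_⟩
  exact HasCompactSupport.comp₂_left hs hs' (by simp)

theorem test_min {φ ψ : X → ℝ} (h : Test φ) (h' : Test ψ) : Test (fun x => min (φ x) (ψ x)) := by
  obtain ⟨⟨C, hC⟩, hs⟩ := h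
  obtain ⟨⟨C', hC'⟩, hs'⟩ := h'
  refine ⟨⟨_, hC.min hC'⟩, ?_⟩
  exact HasCompactSupport.comp₂_left hs hs' (by simp)

theorem lineDeriv_fun_zero (x u : X) : lineDeriv ℝ (fun _ : X => (0 : ℝ)) x u = 0 := by
  simp [lineDeriv]

theorem lineDeriv_zero_off {φ : X → ℝ} {x : X} (hx : x ∉ tsupport φ) (u : X) :
    lineDeriv ℝ φ x u = 0 := by
  have h : φ =ᶠ[𝓝 x] (fun _ => 0) := by
    have := notMem_tsupport_iff_eventuallyEq.1 hx
    exact this
  rw [h.lineDeriv_eq]
  exact lineDeriv_fun_zero x u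

theorem Test.integrable_mul {φ ψ : X → ℝ} (h : Test φ) (h' : Test ψ) (u w : X) :
    Integrable (fun x => lineDeriv ℝ φ x u * lineDeriv ℝ ψ x w) := by
  obtain ⟨⟨C, hC⟩, hs⟩ := h
  obtain ⟨⟨C', hC'⟩, hs'⟩ := h'
  have hsub : Function.support (fun x => lineDeriv ℝ φ x u * lineDeriv ℝ ψ x w) ⊆ tsupport φ := by
    intro x hx
    by_contra hx'
    apply hx
    show lineDeriv ℝ φ x u * lineDeriv ℝ ψ x w = 0
    rw [lineDeriv_zero_off hx', zero_mul]
  rw [← integrableOn_iff_integrable_of_support_subset hsub]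
  have hK : IsCompact (tsupport φ) := hs
  apply Measure.integrableOn_of_bounded (M := (C * ‖u‖) * (C' * ‖w‖)) hK.measure_lt_top.ne
  · exact ((measurable_lineDeriv hC.continuous).mul
      (measurable_lineDeriv hC'.continuous)).aestronglyMeasurable
  · refine Filter.Eventually.of_forall fun x => ?_
    rw [norm_mul]
    have h1 := norm_lineDeriv_le_of_lipschitz (x₀ := x) (v := u) ℝ hC
    have h2 := norm_lineDeriv_le_of_lipschitz (x₀ := x) (v := w) ℝ hC'
    gcongr

theorem Test.integrable_gg {φ ψ : X → ℝ} (h : Test φ) (h' : Test ψ) : Integrable (gg φ ψ) := by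
  unfold gg
  exact integrable_finsetSum _ fun i _ => h.integrable_mul h' (e i) (e i)

theorem gg_nonneg (φ : X → ℝ) (x : X) : 0 ≤ gg φ φ x :=
  Finset.sum_nonneg fun i _ => mul_self_nonneg _

theorem Dir_nonneg (φ : X → ℝ) : 0 ≤ Dir φ := by
  unfold Dir
  have := Real.pi_pos
  exact mul_nonneg (by positivity) (integral_nonneg (gg_nonneg φ))

theorem Test.integrable_dens {φ ν : X → ℝ} (h : Test φ) (hν : Continuous ν) :
    Integrable (fun x => φ x * ν x) := by
  apply Continuous.integrable_of_hasCompactSupport (h.cont.mul hν)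
  exact h.2.mul_right

theorem Test.integrable_pow {φ : X → ℝ} (h : Test φ) {p : ℝ} (hp : 0 < p) :
    Integrable (fun x => (max (φ x) 0) ^ p) := by
  apply Continuous.integrable_of_hasCompactSupport
  · exact (h.cont.max continuous_const).rpow_const (fun x => Or.inr hp.le)
  · apply HasCompactSupport.comp_left (g := fun t : ℝ => (max t 0) ^ p) h.2
    simp [hp.ne']

theorem Nice.integrable_pow {ν : X → ℝ} (h : Nice ν) {p : ℝ} (hp : 0 < p) :
    Integrable (fun x => ν x ^ p) := by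
  apply Continuous.integrable_of_hasCompactSupport
  · exact h.cont.rpow_const (fun x => Or.inr hp.le)
  · apply HasCompactSupport.comp_left (g := fun t : ℝ => t ^ p) h.supp
    simp [hp.ne']

theorem Nice.add {ν β : X → ℝ} (h : Nice ν) (h' : Nice β) : Nice (fun x => ν x + β x) :=
  ⟨h.cont.add h'.cont, fun x => add_nonneg (h.nonneg x) (h'.nonneg x), h.supp.add h'.supp⟩

theorem Nice.zero : Nice (fun _ => 0) :=
  ⟨continuous_const, fun _ => le_rfl, HasCompactSupport.zero⟩

theorem Nice.sum {ι : Type} (s : Finset ι) {ν : ι → X → ℝ} (h : ∀ i, Nice (ν i)) :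
    Nice (fun x => ∑ i ∈ s, ν i x) := by
  classical
  induction s using Finset.induction_on with
  | empty => simpa using Nice.zero
  | insert i s hi ih =>
    simp only [Finset.sum_insert hi]
    exact (h i).add ih

/-- pointwise Young inequality -/
theorem young_pt {κ a b : ℝ} (hκ : 0 < κ) (hb : 0 ≤ b) :
    a * b ≤ (2 / 5) * κ * (max a 0) ^ (5 / 2 : ℝ) +
      (3 / 5) * κ ^ (-(2 / 3) : ℝ) * b ^ (5 / 3 : ℝ) := by
  have h1 : a * b ≤ (κ ^ (2 / 5 : ℝ) * max a 0) * (κ ^ (-(2 / 5) : ℝ) * b) := by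
    have h2 : κ ^ (2 / 5 : ℝ) * κ ^ (-(2 / 5) : ℝ) = 1 := by
      rw [← Real.rpow_add hκ]; norm_num
    calc a * b ≤ max a 0 * b := mul_le_mul_of_nonneg_right (le_max_left _ _) hb
      _ = (κ ^ (2 / 5 : ℝ) * κ ^ (-(2 / 5) : ℝ)) * (max a 0 * b) := by rw [h2, one_mul]
      _ = _ := by ring
  have hk1 : 0 ≤ κ ^ (2 / 5 : ℝ) := (Real.rpow_pos_of_pos hκ _).le
  have hk2 : 0 ≤ κ ^ (-(2 / 5) : ℝ) := (Real.rpow_pos_of_pos hκ _).le
  have h3 := Real.young_inequality_of_nonneg (a := κ ^ (2 / 5 : ℝ) * max a 0)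
    (b := κ ^ (-(2 / 5) : ℝ) * b) (p := 5 / 2) (q := 5 / 3)
    (mul_nonneg hk1 (le_max_right _ _)) (mul_nonneg hk2 hb)
    (Real.holderConjugate_iff.2 ⟨by norm_num, by norm_num⟩)
  rw [Real.mul_rpow hk1 (le_max_right _ _), Real.mul_rpow hk2 hb, ← Real.rpow_mul hκ.le,
    ← Real.rpow_mul hκ.le] at h3
  norm_num at h3 h1 ⊢
  linarith

theorem J_le {κ : ℝ} (hκ : 0 < κ) {ν : X → ℝ} (hν : Nice ν) {φ : X → ℝ} (hφ : Test φ) :
    J κ ν φ ≤ ∫ x, (3 / 5) * κ ^ (-(2 / 3) : ℝ) * ν x ^ (5 / 3 : ℝ) := by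
  have h1 : (∫ x, φ x * ν x) ≤ ∫ x, ((2 / 5) * κ * (max (φ x) 0) ^ (5 / 2 : ℝ) +
      (3 / 5) * κ ^ (-(2 / 3) : ℝ) * ν x ^ (5 / 3 : ℝ)) := by
    apply integral_mono (hφ.integrable_dens hν.cont)
    · exact ((hφ.integrable_pow (by norm_num)).const_mul _).add
        ((hν.integrable_pow (by norm_num)).const_mul _)
    · intro x
      exact young_pt hκ (hν.nonneg x)
  rw [integral_add ((hφ.integrable_pow (by norm_num)).const_mul _)
    ((hν.integrable_pow (by norm_num)).const_mul _), integral_const_mul ((2 / 5) * κ)] at h1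
  have h2 := Dir_nonneg φ
  unfold J Pot
  linarith

theorem T_bddAbove {κ : ℝ} (hκ : 0 < κ) {ν : X → ℝ} (hν : Nice ν) :
    BddAbove {t | ∃ φ, Test φ ∧ t = J κ ν φ} := by
  refine ⟨∫ x, (3 / 5) * κ ^ (-(2 / 3) : ℝ) * ν x ^ (5 / 3 : ℝ), ?_⟩
  rintro t ⟨φ, hφ, rfl⟩
  exact J_le hκ hν hφ

theorem T_nonempty (κ : ℝ) (ν : X → ℝ) : {t | ∃ φ, Test φ ∧ t = J κ ν φ}.Nonempty :=
  ⟨_, _, test_zero, rfl⟩

theorem J_le_T {κ : ℝ} (hκ : 0 < κ) {ν : X → ℝ} (hν : Nice ν) {φ : X → ℝ} (hφ : Test φ) :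
    J κ ν φ ≤ T κ ν := le_csSup (T_bddAbove hκ hν) ⟨φ, hφ, rfl⟩

theorem T_le {κ : ℝ} {ν : X → ℝ} {c : ℝ} (h : ∀ φ, Test φ → J κ ν φ ≤ c) : T κ ν ≤ c := by
  apply csSup_le (T_nonempty κ ν)
  rintro t ⟨φ, hφ, rfl⟩
  exact h φ hφ

theorem Pot_nonneg {κ : ℝ} (hκ : 0 ≤ κ) (φ : X → ℝ) : 0 ≤ Pot κ φ := by
  unfold Pot
  refine mul_nonneg (by positivity) (integral_nonneg fun x => ?_)
  exact Real.rpow_nonneg (le_max_right _ _) _

theorem T_zero {κ : ℝ} (hκ : 0 ≤ κ) : T κ (fun _ => 0) = 0 := by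
  have h0 : J κ (fun _ => 0) (fun _ : X => (0 : ℝ)) = 0 := by
    have hl : ∀ (x : X) (u : X), lineDeriv ℝ (fun _ : X => (0 : ℝ)) x u = 0 := 
      lineDeriv_fun_zero
    unfold J Dir Pot gg
    simp [hl]
  apply le_antisymm
  · apply T_le
    intro φ hφ
    have h1 := Dir_nonneg φ
    have h2 := Pot_nonneg hκ φ
    unfold J
    simp only [mul_zero, integral_zero]
    linarith
  · apply le_csSup
    · refine ⟨0, ?_⟩
      rintro t ⟨φ, hφ, rfl⟩
      have h1 := Dir_nonneg φ
      have h2 := Pot_nonneg hκ φ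
      unfold J
      simp only [mul_zero, integral_zero]
      linarith
    · exact ⟨_, test_zero, h0.symm⟩

/-! ### maxima and minima -/

theorem max_min_deriv {f g : ℝ → ℝ} {a b c d : ℝ} (hf : HasDerivAt f a 0) (hg : HasDerivAt g b 0)
    (hM : HasDerivAt (fun t => max (f t) (g t)) c 0)
    (hm : HasDerivAt (fun t => min (f t) (g t)) d 0) : c * c + d * d ≤ a * a + b * b := by
  rcases lt_trichotomy (f 0) (g 0) with h | h | h
  · have hev : ∀ᶠ t in 𝓝 (0 : ℝ), f t < g t :=
      hf.continuousAt.eventually_lt hg.continuousAt h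
    have h1 : (fun t => max (f t) (g t)) =ᶠ[𝓝 0] g :=
      hev.mono fun t ht => max_eq_right ht.le
    have h2 : (fun t => min (f t) (g t)) =ᶠ[𝓝 0] f :=
      hev.mono fun t ht => min_eq_left ht.le
    have e1 : c = b := hM.unique (hg.congr_of_eventuallyEq h1)
    have e2 : d = a := hm.unique (hf.congr_of_eventuallyEq h2)
    rw [e1, e2]; linarith
  · have hsum : (fun t => max (f t) (g t) + min (f t) (g t)) = fun t => f t + g t := by
      funext t; exact max_add_min _ _
    have e1 : c + d = a + b := by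
      have h1 := hM.add hm
      have h2 := hf.add hg
      have h1' : HasDerivAt (fun t => max (f t) (g t) + min (f t) (g t)) (c + d) 0 := h1
      rw [hsum] at h1'
      exact h1'.unique h2
    have hmin : IsLocalMin (fun t => max (f t) (g t) - min (f t) (g t)) 0 := by
      refine Filter.Eventually.of_forall fun t => ?_
      simp only [h, max_self, min_self, sub_self]
      exact sub_nonneg.2 (min_le_max)
    have e2 : c - d = 0 := hmin.hasDerivAt_eq_zero (hM.sub hm)
    have e3 : c = (a + b) / 2 := by linarith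
    have e4 : d = (a + b) / 2 := by linarith
    rw [e3, e4]
    nlinarith [sq_nonneg (a - b)]
  · have hev : ∀ᶠ t in 𝓝 (0 : ℝ), g t < f t :=
      hg.continuousAt.eventually_lt hf.continuousAt h
    have h1 : (fun t => max (f t) (g t)) =ᶠ[𝓝 0] f :=
      hev.mono fun t ht => max_eq_left ht.le
    have h2 : (fun t => min (f t) (g t)) =ᶠ[𝓝 0] g :=
      hev.mono fun t ht => min_eq_right ht.le
    have e1 : c = a := hM.unique (hf.congr_of_eventuallyEq h1)
    have e2 : d = b := hm.unique (hg.congr_of_eventuallyEq h2)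
    rw [e1, e2]

theorem Test.ae_diff {φ : X → ℝ} (h : Test φ) :
    ∀ᵐ x : X, ∀ i, LineDifferentiableAt ℝ φ x (e i) := by
  obtain ⟨⟨C, hC⟩, -⟩ := h
  exact ae_all_iff.2 fun i => hC.ae_lineDifferentiableAt (e i)

theorem gg_max_min {φ ψ : X → ℝ} {x : X} (h1 : ∀ i, LineDifferentiableAt ℝ φ x (e i))
    (h2 : ∀ i, LineDifferentiableAt ℝ ψ x (e i))
    (h3 : ∀ i, LineDifferentiableAt ℝ (fun x => max (φ x) (ψ x)) x (e i))
    (h4 : ∀ i, LineDifferentiableAt ℝ (fun x => min (φ x) (ψ x)) x (e i)) :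
    gg (fun x => max (φ x) (ψ x)) (fun x => max (φ x) (ψ x)) x +
      gg (fun x => min (φ x) (ψ x)) (fun x => min (φ x) (ψ x)) x ≤ gg φ φ x + gg ψ ψ x := by
  unfold gg
  rw [← Finset.sum_add_distrib, ← Finset.sum_add_distrib]
  apply Finset.sum_le_sum
  intro i _
  exact max_min_deriv (h1 i).hasLineDerivAt (h2 i).hasLineDerivAt (h3 i).hasLineDerivAt
    (h4 i).hasLineDerivAt

theorem Dir_max_min {φ ψ : X → ℝ} (h : Test φ) (h' : Test ψ) :
    Dir (fun x => max (φ x) (ψ x)) + Dir (fun x => min (φ x) (ψ x)) ≤ Dir φ + Dir ψ := by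
  unfold Dir
  rw [← mul_add, ← mul_add]
  have := Real.pi_pos
  refine mul_le_mul_of_nonneg_left ?_ (by positivity)
  rw [← integral_add ((test_max h h').integrable_gg (test_max h h'))
    ((test_min h h').integrable_gg (test_min h h')),
    ← integral_add (h.integrable_gg h) (h'.integrable_gg h')]
  apply integral_mono_ae
  · exact ((test_max h h').integrable_gg (test_max h h')).add ((test_min h h').integrable_gg (test_min h h'))
  · exact (h.integrable_gg h).add (h'.integrable_gg h')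
  · filter_upwards [h.ae_diff, h'.ae_diff, (test_max h h').ae_diff, (test_min h h').ae_diff]
      with x h1 h2 h3 h4
    exact gg_max_min h1 h2 h3 h4

theorem Pot_max_min {κ : ℝ} {φ ψ : X → ℝ} (h : Test φ) (h' : Test ψ) :
    Pot κ (fun x => max (φ x) (ψ x)) + Pot κ (fun x => min (φ x) (ψ x)) = Pot κ φ + Pot κ ψ := by
  unfold Pot
  rw [← mul_add, ← mul_add, ← integral_add ((test_max h h').integrable_pow (by norm_num))
    ((test_min h h').integrable_pow (by norm_num)),
    ← integral_add (h.integrable_pow (by norm_num)) (h'.integrable_pow (by norm_num))]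
  congr 2
  funext x
  rcases le_total (φ x) (ψ x) with hle | hle
  · simp only [max_eq_right hle, min_eq_left hle]; ring
  · simp only [max_eq_left hle, min_eq_right hle]

theorem J_pos_part {κ : ℝ} {ν φ : X → ℝ} (hν : Nice ν) (h : Test φ) :
    J κ ν φ ≤ J κ ν (fun x => max (φ x) 0) := by
  have hp : Test (fun x => max (φ x) 0) := test_max h test_zero
  have h1 := Dir_max_min h test_zero
  have h2 := Dir_nonneg (fun x => min (φ x) 0)
  have h3 : Dir (fun _ : X => (0 : ℝ)) = 0 := by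
    have hl : ∀ (x : X) (u : X), lineDeriv ℝ (fun _ : X => (0 : ℝ)) x u = 0 := 
      lineDeriv_fun_zero
    unfold Dir gg
    simp [hl]
  have h4 : Pot κ (fun x => max (φ x) 0) = Pot κ φ := by
    unfold Pot
    congr 2
    funext x
    rw [max_eq_left (le_max_right (φ x) 0)]
  have h5 : (∫ x, φ x * ν x) ≤ ∫ x, max (φ x) 0 * ν x := by
    apply integral_mono (h.integrable_dens hν.cont) (hp.integrable_dens hν.cont)
    intro x
    exact mul_le_mul_of_nonneg_right (le_max_left _ _) (hν.nonneg x)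
  unfold J
  rw [h4]
  rw [h3] at h1
  linarith

theorem J_supermod {κ : ℝ} {ν β β' φ ψ : X → ℝ} (hν : Nice ν) (hβ : Nice β) (hβ' : Nice β')
    (h : Test φ) (h' : Test ψ) :
    J κ (fun x => ν x + β x) φ + J κ (fun x => ν x + β' x) ψ ≤
      J κ (fun x => ν x + β x + β' x) (fun x => max (φ x) (ψ x)) +
        J κ ν (fun x => min (φ x) (ψ x)) := by
  have h1 := Dir_max_min h h'
  have h2 := Pot_max_min (κ := κ) h h'
  have h3 : (∫ x, φ x * (ν x + β x)) + (∫ x, ψ x * (ν x + β' x)) ≤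
      (∫ x, max (φ x) (ψ x) * (ν x + β x + β' x)) + ∫ x, min (φ x) (ψ x) * ν x := by
    rw [← integral_add (h.integrable_dens (hν.add hβ).cont)
      (h'.integrable_dens (hν.add hβ').cont),
      ← integral_add ((test_max h h').integrable_dens ((hν.add hβ).add hβ').cont)
        ((test_min h h').integrable_dens hν.cont)]
    apply integral_mono
    · exact (h.integrable_dens (hν.add hβ).cont).add
        (h'.integrable_dens (hν.add hβ').cont)
    · exact ((test_max h h').integrable_dens ((hν.add hβ).add hβ').cont).add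
        ((test_min h h').integrable_dens hν.cont)
    · intro x
      have e1 := hβ.nonneg x
      have e2 := hβ'.nonneg x
      have e3 := hν.nonneg x
      rcases le_total (φ x) (ψ x) with hle | hle
      · simp only [max_eq_right hle, min_eq_left hle]
        nlinarith [mul_le_mul_of_nonneg_right hle e1]
      · simp only [max_eq_left hle, min_eq_right hle]
        nlinarith [mul_le_mul_of_nonneg_right hle e2]
  unfold J
  linarith

theorem T_supermod {κ : ℝ} (hκ : 0 < κ) {ν β β' : X → ℝ} (hν : Nice ν) (hβ : Nice β)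
    (hβ' : Nice β') : T κ (fun x => ν x + β x) + T κ (fun x => ν x + β' x) ≤
      T κ (fun x => ν x + β x + β' x) + T κ ν := by
  rw [← le_sub_iff_add_le]
  apply T_le
  intro φ hφ
  rw [le_sub_comm]
  apply T_le
  intro ψ hψ
  have h1 := J_supermod (κ := κ) hν hβ hβ' hφ hψ
  have h2 := J_le_T hκ ((hν.add hβ).add hβ') (test_max hφ hψ)
  have h3 := J_le_T hκ hν (test_min hφ hψ)
  linarith

end Pool.Agent.Helper96.TF
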