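import Pool.Agent.Helper93.TF.AsmDefs

set_option autoImplicit false

open MeasureTheory Filter Topology

namespace Pool.Agent.Helper96.TF

noncomputable section

variable {ι : Type} [Fintype ι]

lemma nuS_add (z β : ι → ℝ) (R : ι → X) (ε : ℝ) :
    nuS (fun i => z i + β i) R ε = fun x => nuS z R ε x + nuS β R ε x := by
  funext x
  unfold nuS
  rw [← Finset.sum_add_distrib]
  exact Finset.sum_congr rfl fun i _ => by ring

/-- the energy is supermodular in the charges -/
theorem TFE_supermod {γ : ℝ} (hγ : 0 < γ) {z β β' : ι → ℝ} {R : ι → X}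
    (hR : Function.Injective R) (hz : ∀ i, 0 ≤ z i) (hβ : ∀ i, 0 ≤ β i) (hβ' : ∀ i, 0 ≤ β' i)
    (hd : ∀ i, β i * β' i = 0) :
    TFE γ (fun i => z i + β i) R + TFE γ (fun i => z i + β' i) R ≤
      TFE γ (fun i => z i + β i + β' i) R + TFE γ z R := by
  have hκ : 0 < γ ^ (-(3 / 2) : ℝ) := Real.rpow_pos_of_pos hγ _
  have l1 := dual_lim hγ (fun i => z i + β i) R (fun i => add_nonneg (hz i) (hβ i)) hR
  have l2 := dual_lim hγ (fun i => z i + β' i) R (fun i => add_nonneg (hz i) (hβ' i)) hR
  have l3 := dual_lim hγ (fun i => z i + β i + β' i) R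
    (fun i => add_nonneg (add_nonneg (hz i) (hβ i)) (hβ' i)) hR
  have l4 := dual_lim hγ z R hz hR
  refine le_of_tendsto_of_tendsto (l1.add l2) (l3.add l4) ?_
  filter_upwards [self_mem_nhdsWithin] with ε hε
  have hε0 : 0 < ε := hε
  have h := T_supermod hκ (E_nuS_nice hz R hε0) (E_nuS_nice hβ R hε0) (E_nuS_nice hβ' R hε0)
  rw [nuS_add z β, nuS_add z β', nuS_add (fun i => z i + β i) β', nuS_add z β]
  have hs : selfE (fun i => z i + β i) ε + selfE (fun i => z i + β' i) ε =
      selfE (fun i => z i + β i + β' i) ε + selfE z ε := by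
    unfold selfE
    rw [← mul_add, ← mul_add, ← Finset.sum_add_distrib, ← Finset.sum_add_distrib]
    congr 1
    refine Finset.sum_congr rfl fun i _ => ?_
    have := hd i
    linear_combination -2 * this
  linarith

theorem TFE_zero_charge {γ : ℝ} (hγ : 0 < γ) {R : ι → X} (hR : Function.Injective R) :
    TFE γ (fun _ => 0) R = 0 := by
  have hκ : 0 < γ ^ (-(3 / 2) : ℝ) := Real.rpow_pos_of_pos hγ _
  have l1 := dual_lim hγ (fun _ => 0) R (fun _ => le_rfl) hR
  refine tendsto_nhds_unique l1 ?_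
  have : (fun ε => T (γ ^ (-(3 / 2) : ℝ)) (nuS (fun _ => 0) R ε) - selfE (fun _ : ι => (0 : ℝ)) ε) =
      fun _ => 0 := by
    funext ε
    have h1 : nuS (fun _ => 0) R ε = fun _ => 0 := by
      funext x; simp [nuS]
    rw [h1, T_zero hκ.le]
    simp [selfE]
  rw [this]
  exact tendsto_const_nhds

/-- superadditivity -/
theorem TFE_superadd {γ : ℝ} (hγ : 0 < γ) {β β' : ι → ℝ} {R : ι → X}
    (hR : Function.Injective R) (hβ : ∀ i, 0 ≤ β i) (hβ' : ∀ i, 0 ≤ β' i)
    (hd : ∀ i, β i * β' i = 0) :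
    TFE γ β R + TFE γ β' R ≤ TFE γ (fun i => β i + β' i) R := by
  have h := TFE_supermod hγ (z := fun _ => 0) hR (fun _ => le_rfl) hβ hβ' hd
  rw [TFE_zero_charge hγ hR] at h
  simpa using h

/-- nuclei of charge zero can be removed -/
theorem TFE_embed {κ : Type} [Fintype κ] (γ : ℝ) (z : ι → ℝ) (R : ι → X) (g : κ → ι)
    (hg : Function.Injective g) (h0 : ∀ i, i ∉ Set.range g → z i = 0) :
    TFE γ z R = TFE γ (fun k => z (g k)) (fun k => R (g k)) := by
  classical
  have hs : ∑ k, z (g k) = ∑ i, z i :=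
    Fintype.sum_of_injective g hg _ _ (fun i hi => h0 i hi) fun _ => rfl
  have hV : ∀ x, Vp (fun k => z (g k)) (fun k => R (g k)) x = Vp z R x := fun x =>
    Fintype.sum_of_injective g hg _ _ (fun i hi => by rw [h0 i hi, zero_div]) fun _ => rfl
  have hU : Urep (fun k => z (g k)) (fun k => R (g k)) = Urep z R := by
    unfold Urep
    congr 1
    refine Fintype.sum_of_injective g hg _ _ (fun i hi => ?_) fun k => ?_
    · refine Finset.sum_eq_zero fun j _ => ?_
      rw [h0 i hi]
      simp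
    · refine Fintype.sum_of_injective g hg _ _ (fun i hi => ?_) fun j => ?_
      · rw [h0 i hi]; simp
      · by_cases hkj : k = j
        · subst hkj; simp
        · rw [if_neg hkj, if_neg (fun h => hkj (hg h))]
  unfold TFE energySet energy
  simp only [hs, hV, hU]

/-- the interaction of disjoint charges is monotone in the first one -/
theorem inter_mono {γ : ℝ} (hγ : 0 < γ) {a α b : ι → ℝ} {R : ι → X}
    (hR : Function.Injective R) (ha : ∀ i, 0 ≤ a i) (hα : ∀ i, 0 ≤ α i) (hb : ∀ i, 0 ≤ b i)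
    (hd : ∀ i, α i * b i = 0) :
    TFE γ (fun i => a i + b i) R - TFE γ a R - TFE γ b R ≤
      TFE γ (fun i => a i + α i + b i) R - TFE γ (fun i => a i + α i) R - TFE γ b R := by
  have h := TFE_supermod hγ (z := a) hR ha hα hb hd
  linarith

end

end Pool.Agent.Helper96.TF
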