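import Pool.Agent.Helper93.TF.Super

set_option autoImplicit false

open MeasureTheory Filter Topology

namespace Pool.Agent.Helper96.TF

noncomputable section

/-- interaction energy of two nuclei -/
def G2 (γ a b : ℝ) (p q : X) : ℝ :=
  TFE γ ![a, b] ![p, q] - TFE γ ![a, 0] ![p, q] - TFE γ ![0, b] ![p, q]

lemma inj_two {p q : X} (h : p ≠ q) : Function.Injective ![p, q] := by
  intro i j hij
  fin_cases i <;> fin_cases j <;> simp_all

lemma vec_add (a b c d : ℝ) : (fun i => ![a, b] i + ![c, d] i) = ![a + c, b + d] := by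
  funext i
  fin_cases i <;> simp

lemma vec_nonneg {a b : ℝ} (ha : 0 ≤ a) (hb : 0 ≤ b) (i : Fin 2) : 0 ≤ ![a, b] i := by
  fin_cases i <;> simp [ha, hb]

lemma G2_mono {γ : ℝ} (hγ : 0 < γ) {a a' b b' : ℝ} (ha : 0 ≤ a) (haa : a ≤ a') (hb : 0 ≤ b)
    (hbb : b ≤ b') {p q : X} (hpq : p ≠ q) : G2 γ a b p q ≤ G2 γ a' b' p q := by
  have hR := inj_two hpq
  have h1 : G2 γ a b p q ≤ G2 γ a' b p q := by
    have h := inter_mono hγ (a := ![a, 0]) (α := ![a' - a, 0]) (b := ![0, b]) hR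
      (vec_nonneg ha le_rfl) (vec_nonneg (sub_nonneg.mpr haa) le_rfl) (vec_nonneg le_rfl hb)
      (fun i => by fin_cases i <;> simp)
    have e1 : (fun i => ![a, 0] i + ![0, b] i) = ![a, b] := by
      rw [vec_add]; simp
    have e2 : (fun i => ![a, 0] i + ![a' - a, 0] i) = ![a', 0] := by
      rw [vec_add]; simp
    have e3 : (fun i => ![a, 0] i + ![a' - a, 0] i + ![0, b] i) = ![a', b] := by
      funext i; fin_cases i <;> simp
    rw [e1, e2, e3] at h
    exact h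
  have h2 : G2 γ a' b p q ≤ G2 γ a' b' p q := by
    have h := inter_mono hγ (a := ![0, b]) (α := ![0, b' - b]) (b := ![a', 0]) hR
      (vec_nonneg le_rfl hb) (vec_nonneg le_rfl (sub_nonneg.mpr hbb))
      (vec_nonneg (ha.trans haa) le_rfl) (fun i => by fin_cases i <;> simp)
    have e1 : (fun i => ![0, b] i + ![a', 0] i) = ![a', b] := by
      rw [vec_add]; simp
    have e2 : (fun i => ![0, b] i + ![0, b' - b] i) = ![0, b'] := by
      rw [vec_add]; simp
    have e3 : (fun i => ![0, b] i + ![0, b' - b] i + ![a', 0] i) = ![a', b'] := by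
      funext i; fin_cases i <;> simp
    rw [e1, e2, e3] at h
    unfold G2
    linarith
  exact h1.trans h2

lemma G2_scale (γ a b : ℝ) (p q : X) {s : ℝ} (hs : 0 < s) :
    G2 γ (s ^ 3 * a) (s ^ 3 * b) (s⁻¹ • p) (s⁻¹ • q) = s ^ 7 * G2 γ a b p q := by
  have hR : (fun i => s⁻¹ • ![p, q] i) = ![s⁻¹ • p, s⁻¹ • q] := by
    funext i; fin_cases i <;> simp
  have hz : ∀ a b : ℝ, (fun i => s ^ 3 * ![a, b] i) = ![s ^ 3 * a, s ^ 3 * b] := fun a b => by
    funext i; fin_cases i <;> simp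
  have h1 := TFE_scale γ ![a, b] ![p, q] hs
  have h2 := TFE_scale γ ![a, 0] ![p, q] hs
  have h3 := TFE_scale γ ![0, b] ![p, q] hs
  rw [hR, hz] at h1 h2 h3
  rw [mul_zero] at h2 h3
  unfold G2
  rw [h1, h2, h3]
  ring

/-- two nuclei repel at least like the seventh power of the distance -/
theorem two_nuc {γ : ℝ} (hγ : 0 < γ) {a b : ℝ} (ha : 0 < a) (hb : 0 < b) :
    ∃ r0 : ℝ, 0 < r0 ∧ ∀ p q : X, r0 ≤ ‖p - q‖ → r0 ^ 7 * ‖p - q‖⁻¹ ^ 7 ≤ G2 γ a b p q := by
  obtain ⟨C, hC⟩ := two_lower hγ (max a b)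
  refine ⟨a * b / (|C| + 1), by positivity, fun p q hpq => ?_⟩
  set r0 : ℝ := a * b / (|C| + 1) with hr0
  have hr0pos : 0 < r0 := by positivity
  set r : ℝ := ‖p - q‖ with hr
  have hrpos : 0 < r := lt_of_lt_of_le hr0pos hpq
  set s : ℝ := r / r0 with hs
  have hs1 : 1 ≤ s := (one_le_div hr0pos).mpr hpq
  have hspos : 0 < s := by positivity
  have hne : s⁻¹ • p ≠ s⁻¹ • q := by
    intro h
    have h1 : p = q := by
      have := congrArg (fun x => s • x) h
      simpa [smul_smul, mul_inv_cancel₀ hspos.ne'] using this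
    rw [h1, sub_self, norm_zero] at hr
    linarith
  have hs3 : 1 ≤ s ^ 3 := one_le_pow₀ hs1
  have h1 := G2_mono hγ ha.le (le_mul_of_one_le_left ha.le hs3) hb.le
    (le_mul_of_one_le_left hb.le hs3) hne
  rw [G2_scale γ a b p q hspos] at h1
  have h2 := hC ![a, b] (fun i => by
    fin_cases i
    · exact ⟨ha.le, le_max_left _ _⟩
    · exact ⟨hb.le, le_max_right _ _⟩) ![s⁻¹ • p, s⁻¹ • q]
  have h3 := one_nonpos hγ ![a, 0] (vec_nonneg ha.le le_rfl) 0
    (fun i hi => by fin_cases i <;> simp_all) ![s⁻¹ • p, s⁻¹ • q]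
  have h4 := one_nonpos hγ ![0, b] (vec_nonneg le_rfl hb.le) 1
    (fun i hi => by fin_cases i <;> simp_all) ![s⁻¹ • p, s⁻¹ • q]
  have hdist : ‖s⁻¹ • p - s⁻¹ • q‖ = r0 := by
    rw [← smul_sub, norm_smul, Real.norm_of_nonneg (by positivity), ← hr, hs]
    field_simp
  simp only [Matrix.cons_val_zero, Matrix.cons_val_one, hdist] at h2
  have h5 : a * b / r0 = |C| + 1 := by
    rw [hr0]; field_simp
  have h6 : 1 ≤ G2 γ a b (s⁻¹ • p) (s⁻¹ • q) := by
    unfold G2
    have := le_abs_self C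
    linarith
  have h7 : 1 ≤ s ^ 7 * G2 γ a b p q := h6.trans h1
  have h8 : r0 ^ 7 * r⁻¹ ^ 7 = (s ^ 7)⁻¹ := by
    rw [hs]; field_simp
  rw [h8, inv_le_iff_one_le_mul₀ (by positivity)]
  linarith

end

end Pool.Agent.Helper96.TF
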