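import Pool.Agent.Helper93.TF.AsmDefs

set_option autoImplicit false

open MeasureTheory Filter Topology

namespace Pool.Agent.Helper96.TF

noncomputable section

variable {n : ℕ} {K : Fin n → ℕ}

/-- the smeared nuclei of the whole configuration are the sum over the molecules -/
lemma nuS_sigma (z : ∀ m, Fin (K m) → ℝ) (P : ∀ m, Fin (K m) → X) (ε : ℝ) (x : X) :
    nuS (fun i : (m : Fin n) × Fin (K m) => z i.1 i.2) (fun i => P i.1 i.2) ε x =
      ∑ m, nuS (z m) (P m) ε x := by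
  unfold nuS
  rw [Fintype.sum_sigma]

lemma selfE_sigma (z : ∀ m, Fin (K m) → ℝ) (ε : ℝ) :
    selfE (fun i : (m : Fin n) × Fin (K m) => z i.1 i.2) ε = ∑ m, selfE (z m) ε := by
  unfold selfE
  rw [Fintype.sum_sigma, Finset.mul_sum]

/-- the upper half of the theorem -/
theorem upper_half {γ : ℝ} (hγ : 0 < γ) (z : ∀ m, Fin (K m) → ℝ) (R : ∀ m, Fin (K m) → X)
    (Y : Fin n → X) (hz : ∀ m i, 0 ≤ z m i)
    (hR : ∀ m, Function.Injective (R m)) (hY : Function.Injective Y) :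
    ∃ C l0 : ℝ, 0 < C ∧ 0 < l0 ∧ ∀ l, l0 ≤ l → DeltaE γ z R Y l ≤ C * l⁻¹ ^ 7 := by
  obtain ⟨l1, hl1, hinj⟩ := P_inj R Y hR hY
  obtain ⟨d, hd, hdist⟩ := exists_min_dist hY
  obtain ⟨B, hB0, hB⟩ : ∃ B : ℝ, 0 ≤ B ∧ ∀ i : (m : Fin n) × Fin (K m), ‖R i.1 i.2‖ ≤ B :=
    ⟨∑ j : (m : Fin n) × Fin (K m), ‖R j.1 j.2‖, Finset.sum_nonneg fun _ _ => norm_nonneg _,
      fun i => Finset.single_le_sum (f := fun j : (m : Fin n) × Fin (K m) => ‖R j.1 j.2‖)
        (fun _ _ => norm_nonneg _) (Finset.mem_univ i)⟩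
  set κ : ℝ := γ ^ (-(3 / 2) : ℝ) with hκdef
  have hκ : 0 < κ := Real.rpow_pos_of_pos hγ _
  obtain ⟨C0, hC0, hloc⟩ := T_local hκ
  refine ⟨n * C0 * (3 / d) ^ 7 + 1, max l1 (3 * (B + 1) / d), by positivity,
    lt_max_of_lt_left hl1, fun l hl => ?_⟩
  have hl' : l1 ≤ l := le_trans (le_max_left _ _) hl
  have hl2 : 3 * (B + 1) / d ≤ l := le_trans (le_max_right _ _) hl
  have hlpos : 0 < l := lt_of_lt_of_le hl1 hl'
  set w : ℝ := l * d / 3 with hw
  have hwpos : 0 < w := by positivity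
  have hwB : B + 1 ≤ w := by
    rw [div_le_iff₀ hd] at hl2
    rw [hw]; linarith
  set P : ∀ m, Fin (K m) → X := fun m i => R m i + l • Y m with hP
  have hPinj := hinj l hl'
  have hPm : ∀ m, Function.Injective (P m) := fun m i j hij => hR m (add_right_cancel hij)
  have hlim := dual_lim hγ (fun i : (m : Fin n) × Fin (K m) => z i.1 i.2)
    (fun i => R i.1 i.2 + l • Y i.1) (fun i => hz i.1 i.2) hPinj
  have hlimm : ∀ m, Tendsto (fun ε => T κ (nuS (z m) (P m) ε) - selfE (z m) ε) (𝓝[>] 0)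
      (𝓝 (TFE γ (z m) (R m))) := fun m => by
    have := dual_lim hγ (z m) (P m) (hz m) (hPm m)
    rw [← TFE_translate γ (z m) (R m) (l • Y m)]
    exact this
  have hsum : Tendsto (fun ε => ∑ m, (T κ (nuS (z m) (P m) ε) - selfE (z m) ε) +
      n * C0 * w⁻¹ ^ 7) (𝓝[>] 0) (𝓝 (∑ m, TFE γ (z m) (R m) + n * C0 * w⁻¹ ^ 7)) :=
    (tendsto_finsetSum _ fun m _ => hlimm m).add_const _
  have key : TFE γ (fun i : (m : Fin n) × Fin (K m) => z i.1 i.2)
      (fun i => R i.1 i.2 + l • Y i.1) ≤ ∑ m, TFE γ (z m) (R m) + n * C0 * w⁻¹ ^ 7 := by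
    refine le_of_tendsto_of_tendsto hlim hsum ?_
    have hev : ∀ᶠ ε in 𝓝[>] (0 : ℝ), 0 < ε ∧ ε ≤ 1 := by
      filter_upwards [Ioc_mem_nhdsGT (show (0 : ℝ) < 1 by norm_num)] with ε hε using hε
    filter_upwards [hev] with ε hε
    have h1 := hloc n w (fun p => l • Y p) (fun p => nuS (z p) (P p) ε) hwpos
      (fun p q hpq => by
        rw [← smul_sub, norm_smul, Real.norm_of_nonneg hlpos.le]
        have := mul_le_mul_of_nonneg_left (hdist p q hpq) hlpos.le
        rw [hw]; linarith)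
      (fun p => E_nuS_nice (hz p) (P p) hε.1)
      (fun p x hx => by
        unfold nuS
        refine Finset.sum_eq_zero fun i _ => ?_
        rw [mE_supp hε.1, mul_zero]
        have h2 : x - P p i = (x - l • Y p) - R p i := by simp only [hP]; abel
        have h3 := norm_sub_norm_le (x - l • Y p) (R p i)
        rw [h2]
        have h4 := hB ⟨p, i⟩
        simp only at h4
        linarith [hε.2])
    have h2 : nuS (fun i : (m : Fin n) × Fin (K m) => z i.1 i.2)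
        (fun i => R i.1 i.2 + l • Y i.1) ε = fun x => ∑ p, nuS (z p) (P p) ε x := by
      funext x
      exact nuS_sigma z P ε x
    rw [h2, selfE_sigma, Finset.sum_sub_distrib]
    linarith
  have hfin : n * C0 * w⁻¹ ^ 7 = n * C0 * (3 / d) ^ 7 * l⁻¹ ^ 7 := by
    rw [hw]; field_simp
  unfold DeltaE
  rw [hfin] at key
  have h7 : 0 < l⁻¹ ^ 7 := by positivity
  nlinarith

end

end Pool.Agent.Helper96.TF
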